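import Pool.Agent.Helper97_WHC.Stmt

/-!
# Squad WHC, row ABS: linear algebra over the group algebra
-/

set_option autoImplicit false

open scoped BigOperators

namespace Pool.Agent.WHC.H45

open Pool.Agent.DEN Pool.Agent.TMP Pool.Agent.WHT Polynomial

section alg

variable {A : Type*} [CommRing A] {n : ℕ}

/-- `∏_{b ≠ a} (X - e_b)` -/
noncomputable def Qp (e : Fin n → A) (a : Fin n) : A[X] :=
  ∏ b ∈ Finset.univ.erase a, (X - C (e b))

/-- `Q_a(e_a)` -/
noncomputable def dt (e : Fin n → A) (a : Fin n) : A := (Qp e a).eval (e a)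

/-- `∏_{b ≠ a} δ_b` -/
noncomputable def et (e : Fin n → A) (a : Fin n) : A := ∏ b ∈ Finset.univ.erase a, dt e b

/-- `∏_b δ_b` -/
noncomputable def ds (e : Fin n → A) : A := ∏ b, dt e b

theorem et_mul (e : Fin n → A) (a : Fin n) : et e a * dt e a = ds e :=
  Finset.prod_erase_mul _ _ (Finset.mem_univ a)

theorem Qp_ne (e : Fin n → A) {a b : Fin n} (h : a ≠ b) : (Qp e a).eval (e b) = 0 := by
  unfold Qp
  rw [Polynomial.eval_prod]
  refine Finset.prod_eq_zero (i := b) (Finset.mem_erase.2 ⟨h.symm, Finset.mem_univ b⟩) ?_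
  rw [eval_sub, eval_X, eval_C, sub_self]

theorem dt_ne [IsDomain A] {e : Fin n → A} (he : Function.Injective e) (a : Fin n) :
    dt e a ≠ 0 := by
  unfold dt Qp
  rw [Polynomial.eval_prod, Finset.prod_ne_zero_iff]
  intro b hb
  rw [eval_sub, eval_X, eval_C, sub_ne_zero]
  intro h
  exact (Finset.mem_erase.1 hb).1 (he h).symm

theorem et_ne [IsDomain A] {e : Fin n → A} (he : Function.Injective e) (a : Fin n) :
    et e a ≠ 0 := Finset.prod_ne_zero_iff.2 fun b _ => dt_ne he b

theorem ds_ne [IsDomain A] {e : Fin n → A} (he : Function.Injective e) :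
    ds e ≠ 0 := Finset.prod_ne_zero_iff.2 fun b _ => dt_ne he b

section map

variable {e : Fin n → A} {f : A →+* A} {σ : Equiv.Perm (Fin n)} (h : ∀ b, f (e b) = e (σ b))

include h

theorem Qp_map (b : Fin n) : (Qp e b).map f = Qp e (σ b) := by
  unfold Qp
  rw [Polynomial.map_prod]
  refine Finset.prod_equiv σ ?_ ?_
  · intro i
    rw [Finset.mem_erase, Finset.mem_erase]
    constructor
    · rintro ⟨h1, _⟩
      exact ⟨fun h2 => h1 (σ.injective h2), Finset.mem_univ _⟩
    · rintro ⟨h1, _⟩
      exact ⟨fun h2 => h1 (by rw [h2]), Finset.mem_univ _⟩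
  · intro i _
    rw [Polynomial.map_sub, map_X, map_C, h i]

theorem dt_map (b : Fin n) : f (dt e b) = dt e (σ b) := by
  unfold dt
  rw [← Polynomial.eval₂_at_apply, ← Polynomial.eval_map, Qp_map h, h b]

theorem et_map (b : Fin n) : f (et e b) = et e (σ b) := by
  unfold et
  rw [map_prod]
  refine Finset.prod_equiv σ ?_ ?_
  · intro i
    rw [Finset.mem_erase, Finset.mem_erase]
    constructor
    · rintro ⟨h1, _⟩
      exact ⟨fun h2 => h1 (σ.injective h2), Finset.mem_univ _⟩
    · rintro ⟨h1, _⟩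
      exact ⟨fun h2 => h1 (by rw [h2]), Finset.mem_univ _⟩
  · intro i _
    exact dt_map h i

theorem ds_map : f (ds e) = ds e := by
  unfold ds
  rw [map_prod]
  exact Finset.prod_equiv σ (fun i => by simp) fun i _ => dt_map h i

theorem P_map : (∏ b, (X - C (e b))).map f = ∏ b, (X - C (e b)) := by
  rw [Polynomial.map_prod]
  refine Finset.prod_equiv σ (fun i => by simp) fun i _ => ?_
  rw [Polynomial.map_sub, map_X, map_C, h i]

end map

theorem lagr [IsDomain A] {e : Fin n → A} (he : Function.Injective e) (hn : 0 < n) :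
    C (ds e) = ∑ a, C (et e a) * Qp e a := by
  have key : C (ds e) - ∑ a, C (et e a) * Qp e a = 0 := by
    refine Polynomial.eq_zero_of_natDegree_lt_card_of_eval_eq_zero _ he ?_ ?_
    · intro i
      rw [eval_sub, eval_C, eval_finset_sum, Finset.sum_eq_single i]
      · rw [eval_mul, eval_C]
        change ds e - et e i * dt e i = 0
        rw [et_mul, sub_self]
      · intro b _ hb
        rw [eval_mul, Qp_ne e hb, mul_zero]
      · intro h
        exact absurd (Finset.mem_univ i) h
    · rw [Fintype.card_fin]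
      have h1 : (∑ a, C (et e a) * Qp e a).natDegree ≤ n - 1 := by
        refine Polynomial.natDegree_sum_le_of_forall_le _ _ fun a _ => ?_
        refine (Polynomial.natDegree_C_mul_le _ _).trans ?_
        unfold Qp
        refine (Polynomial.natDegree_prod_le _ _).trans ?_
        rw [Finset.sum_congr rfl fun b _ => Polynomial.natDegree_X_sub_C (e b), Finset.sum_const,
          Finset.card_erase_of_mem (Finset.mem_univ a), Finset.card_univ, Fintype.card_fin,
          smul_eq_mul, mul_one]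
      have h2 := Polynomial.natDegree_sub_le (C (ds e)) (∑ a, C (et e a) * Qp e a)
      rw [Polynomial.natDegree_C] at h2
      have h3 : max 0 (∑ a, C (et e a) * Qp e a).natDegree ≤ n - 1 := max_le (Nat.zero_le _) h1
      omega
  exact sub_eq_zero.1 key

end alg

section mod

variable {A : Type*} [CommRing A] {Y : Type*} [AddCommGroup Y] [Module A Y]
  (Op : A →+* Module.End A Y)

theorem op_comm (a b : A) : Commute (Op a) (Op b) := by
  change Op a * Op b = Op b * Op a
  rw [← map_mul, mul_comm, map_mul]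

theorem comm_aeval (a c : A) (F : A[X]) : Commute (Op a) (aeval (Op c) F) := by
  rw [Polynomial.aeval_eq_sum_range]
  refine Commute.sum_right _ _ _ fun i _ => ?_
  exact ((op_comm Op a c).pow_right i).smul_right _

/-- a polynomial with invariant coefficients -/
theorem aeval_inv {I : A → Prop} {u : Y} (hu : ∀ T, I T → Op T u = T • u) (c : A) {F : A[X]}
    (hF : ∀ k, I (F.coeff k)) : aeval (Op c) F u = Op (F.eval c) u := by
  rw [Polynomial.aeval_eq_sum_range, Polynomial.eval_eq_sum_range, map_sum,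
    LinearMap.sum_apply, LinearMap.sum_apply]
  refine Finset.sum_congr rfl fun i _ => ?_
  rw [mul_comm, map_mul, map_pow, LinearMap.smul_apply, Module.End.mul_apply, hu _ (hF i), map_smul]

theorem aeval_eig {s : Module.End A Y} {c : A} {u : Y} (h : s u = c • u) (F : A[X]) :
    aeval s F u = F.eval c • u := by
  have hp : ∀ i : ℕ, (s ^ i) u = c ^ i • u := by
    intro i
    induction i with
    | zero => rw [pow_zero, pow_zero, one_smul]; rfl
    | succ i ih => rw [pow_succ', Module.End.mul_apply, ih, map_smul, h, smul_smul, pow_succ]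
  rw [Polynomial.aeval_eq_sum_range, Polynomial.eval_eq_sum_range, LinearMap.sum_apply,
    Finset.sum_smul]
  refine Finset.sum_congr rfl fun i _ => ?_
  rw [LinearMap.smul_apply, hp, smul_smul]

end mod

/-- The abstract form. -/
theorem absmod {A : Type*} [CommRing A] [IsDomain A] {n : ℕ} (φ : Fin n → A →+* A)
    (σ : Fin n → Equiv.Perm (Fin n)) (hφ : ∀ a b x, φ a (φ b x) = φ (σ a b) x) (i₁ : Fin n)
    (h₁ : ∀ x, φ i₁ x = x) (e0 : A) (hinj : Function.Injective fun a => φ a e0)
    {Y : Type*} [AddCommGroup Y] [Module A Y] (tf : ∀ (a : A) (v : Y), a ≠ 0 → a • v = 0 → v = 0)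
    (Op : A →+* Module.End A Y) (y : Y) (hy : ∀ T, (∀ a, φ a T = T) → Op T y = T • y) :
    (∀ a b, Op b (aeval (Op e0) (Qp (fun a => φ a e0) a) y) =
      φ a b • aeval (Op e0) (Qp (fun a => φ a e0) a) y) ∧
    ds (fun a => φ a e0) • y =
      ∑ a, et (fun a => φ a e0) a • aeval (Op e0) (Qp (fun a => φ a e0) a) y := by
  obtain ⟨e, he⟩ : ∃ e : Fin n → A, e = fun a => φ a e0 := ⟨_, rfl⟩
  rw [← he]
  rw [← he] at hinj
  have heφ : ∀ a b, φ a (e b) = e (σ a b) := by
    intro a b
    rw [he]
    exact hφ a b e0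
  have he0 : e i₁ = e0 := by
    rw [he]
    exact h₁ e0
  have hds : ∀ a, φ a (ds e) = ds e := fun a => ds_map (heφ a)
  -- the characteristic polynomial kills `y`
  have hP : aeval (Op e0) (∏ b, (X - C (e b))) y = 0 := by
    have h1 := aeval_inv Op (I := fun T => ∀ a, φ a T = T) (u := y) hy e0
      (F := ∏ b, (X - C (e b))) (fun k a => by
        rw [← Polynomial.coeff_map, P_map (heφ a)])
    rw [h1, Polynomial.eval_prod, Finset.prod_eq_zero (i := i₁) (Finset.mem_univ _), map_zero]
    · rfl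
    · rw [eval_sub, eval_X, eval_C, he0, sub_self]
  obtain ⟨u, hu⟩ : ∃ u : Fin n → Y, ∀ a, u a = aeval (Op e0) (Qp e a) y := ⟨_, fun _ => rfl⟩
  have hs : ∀ a, Op e0 (u a) = e a • u a := by
    intro a
    have h1 : (∏ b, (X - C (e b))) = (X - C (e a)) * Qp e a :=
      (Finset.mul_prod_erase _ _ (Finset.mem_univ a)).symm
    rw [h1, map_mul, Module.End.mul_apply, ← hu, map_sub, aeval_X, aeval_C, LinearMap.sub_apply,
      Module.algebraMap_end_apply, sub_eq_zero] at hP
    exact hP
  have hU : ∀ a T, (∀ b, φ b T = T) → Op T (u a) = T • u a := by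
    intro a T hT
    have h1 : Op T (aeval (Op e0) (Qp e a) y) = aeval (Op e0) (Qp e a) (Op T y) := by
      have h2 := comm_aeval Op T e0 (Qp e a)
      have h3 := congrArg (fun g : Module.End A Y => g y) h2.eq
      exact h3
    rw [hu, h1, hy T hT, map_smul]
  refine ⟨?_, ?_⟩
  · intro a b
    rw [← hu]
    obtain ⟨F, hF⟩ : ∃ F : A[X], F = ∑ v, C (φ v b * et e v) * Qp e v := ⟨_, rfl⟩
    have hFm : ∀ c, F.map (φ c) = F := by
      intro c
      rw [hF, Polynomial.map_sum]
      refine Finset.sum_equiv (σ c) (fun i => by simp) fun i _ => ?_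
      rw [Polynomial.map_mul, map_C, Qp_map (heφ c), map_mul, hφ, et_map (heφ c)]
    have hFe : ∀ c, F.eval (e c) = φ c b * ds e := by
      intro c
      rw [hF, eval_finset_sum, Finset.sum_eq_single c]
      · rw [eval_mul, eval_C, mul_assoc]
        change φ c b * (et e c * dt e c) = _
        rw [et_mul]
      · intro d _ hd
        rw [eval_mul, Qp_ne e hd, mul_zero]
      · intro h
        exact absurd (Finset.mem_univ c) h
    have h1 := aeval_inv Op (I := fun T => ∀ a, φ a T = T) (u := u a) (hU a) e0 (F := F)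
      (fun k c => by rw [← Polynomial.coeff_map, hFm])
    rw [aeval_eig (hs a) F, hFe, ← he0, hFe, h₁, map_mul, Module.End.mul_apply,
      hU a _ hds, map_smul] at h1
    have h2 : ds e • (Op b (u a) - φ a b • u a) = 0 := by
      rw [smul_sub, ← h1, smul_smul, mul_comm, sub_self]
    exact sub_eq_zero.1 (tf _ _ (ds_ne hinj) h2)
  · have h1 := congrArg (fun F : A[X] => aeval (Op e0) F y)
      (lagr hinj (Nat.pos_of_ne_zero (fun h => (Fin.cast h i₁).elim0)))
    rw [map_sum] at h1
    change aeval (Op e0) (C (ds e)) y = _ at h1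
    rw [aeval_C, Module.algebraMap_end_apply] at h1
    rw [h1, LinearMap.sum_apply]
    refine Finset.sum_congr rfl fun a _ => ?_
    rw [map_mul, aeval_C, Module.End.mul_apply, Module.algebraMap_end_apply]

theorem abs (hW : WeyStmt) : AbsStmt := by
  intro r C hC
  obtain ⟨hfin, _, _, _, _, hinv, _, μ₀, hμ⟩ := hW r C hC
  have := Fintype.ofFinite (Wg hC)
  obtain ⟨q, _⟩ : ∃ q : Wg hC ≃ Fin (Fintype.card (Wg hC)), True := ⟨Fintype.equivFin _, trivial⟩
  generalize hn : Fintype.card (Wg hC) = n at q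
  obtain ⟨w, hw⟩ : ∃ w : Fin n → LA r, ∀ a, w a = (q.symm a).1 := ⟨_, fun _ => rfl⟩
  have hwm : ∀ a, w a ∈ Wg hC := by
    intro a
    rw [hw]
    exact (q.symm a).2
  have hwi : Function.Injective w := by
    intro a b h
    rw [hw, hw] at h
    exact q.symm.injective (Subtype.ext h)
  have hwr : Set.range w = (Wg hC : Set (LA r)) := by
    ext x
    constructor
    · rintro ⟨a, rfl⟩
      exact hwm a
    · intro hx
      refine ⟨q ⟨x, hx⟩, ?_⟩
      rw [hw, q.symm_apply_apply]
  obtain ⟨φ, hφd⟩ : ∃ φ : Fin n → CQ r →+* CQ r, ∀ a,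
      φ a = (wA (w a)).toRingEquiv.toRingHom := ⟨_, fun _ => rfl⟩
  have hφa : ∀ a x, φ a x = wA (w a) x := by
    intro a x
    rw [hφd]
    rfl
  have hex : ∀ (a : Fin n) (l : Fin r → ℤ), wA (w a) (ex l) = ex (w a l) := by
    intro a l
    exact AddMonoidAlgebra.domCongr_single _ _ _
  obtain ⟨σ, hσ⟩ : ∃ σ : Fin n → Equiv.Perm (Fin n), ∀ a b, w (σ a b) = w a * w b := by
    refine ⟨fun a => (q.symm.trans (Equiv.mulLeft (q.symm a))).trans q, fun a b => ?_⟩
    rw [hw]
    simp only [Equiv.trans_apply, Equiv.coe_mulLeft, Equiv.symm_apply_apply, Subgroup.coe_mul]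
    rw [hw, hw]
  have hφ : ∀ a b x, φ a (φ b x) = φ (σ a b) x := by
    intro a b x
    rw [hφa, hφa, hφa, hσ]
    apply AddMonoidAlgebra.ext
    apply Finsupp.ext
    intro m
    unfold wA
    rw [AddMonoidAlgebra.coeff_domCongr, AddMonoidAlgebra.coeff_domCongr,
      AddMonoidAlgebra.coeff_domCongr]
    rfl
  obtain ⟨i₁, hi₁⟩ : ∃ i₁, w i₁ = 1 := by
    refine ⟨q 1, ?_⟩
    rw [hw, q.symm_apply_apply]
    rfl
  have h₁ : ∀ x, φ i₁ x = x := by
    intro x
    rw [hφa, hi₁]
    apply AddMonoidAlgebra.ext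
    apply Finsupp.ext
    intro m
    unfold wA
    rw [AddMonoidAlgebra.coeff_domCongr]
    rfl
  have hee : (fun a => φ a (ex μ₀)) = fun a => ex (w a μ₀) := by
    funext a
    rw [hφa, hex]
  have hexi : Function.Injective (ex : (Fin r → ℤ) → CQ r) := by
    intro l l' h
    exact AddMonoidAlgebra.single_left_injective one_ne_zero h
  have hinj : Function.Injective fun a => φ a (ex μ₀) := by
    rw [hee]
    intro a b h
    have h1 : w a μ₀ = w b μ₀ := hexi h
    have h2 : ((w b)⁻¹ * w a) μ₀ = μ₀ := by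
      change (w b).symm (w a μ₀) = μ₀
      rw [h1, LinearEquiv.symm_apply_apply]
    have h3 := hμ _ (mul_mem (inv_mem (hwm b)) (hwm a)) h2
    exact hwi (inv_mul_eq_one.1 h3).symm
  have heφ : ∀ a b, φ a ((fun a => φ a (ex μ₀)) b) = (fun a => φ a (ex μ₀)) (σ a b) :=
    fun a b => hφ a b _
  refine ⟨n, w, Qp (fun a => φ a (ex μ₀)), et (fun a => φ a (ex μ₀)), ds (fun a => φ a (ex μ₀)),
    μ₀, hwi, hwr, ds_ne hinj, ?_, ?_, ?_, ?_, fun a => et_ne hinj a, ?_⟩
  · intro a b c h
    have hc : c = σ a b := hwi (by rw [h, hσ])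
    rw [hc, ← hφd]
    refine ⟨(Qp_map (heφ a) b).symm, ?_⟩
    rw [← hφa]
    exact (et_map (heφ a) b).symm
  · intro a b h
    have h1 := Qp_ne (fun a => φ a (ex μ₀)) h
    rwa [congrFun hee b] at h1
  · intro a
    have h1 := dt_ne hinj a
    have h2 : φ a (ex μ₀) = ex (w a μ₀) := congrFun hee a
    unfold dt at h1
    beta_reduce at h1
    rwa [h2] at h1
  · intro a
    rw [← hφa]
    exact ds_map (heφ a)
  · intro Y _ _ tf S hS0 hSa y hy
    -- the ring homomorphism
    obtain ⟨g, hg⟩ : ∃ g : Multiplicative (Fin r → ℤ) →* Module.End (CQ r) Y,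
        ∀ μ : Fin r → ℤ, g (Multiplicative.ofAdd μ) = S μ := by
      refine ⟨⟨⟨fun μ => S (Multiplicative.toAdd μ), ?_⟩, ?_⟩, fun μ => rfl⟩
      · exact hS0
      · intro μ ν
        exact hSa _ _
    obtain ⟨Op, hOp⟩ : ∃ Op : CQ r →+* Module.End (CQ r) Y, ∀ (μ : Fin r → ℤ) (c : ℂ),
        Op (AddMonoidAlgebra.single μ c) =
          algebraMap (CQ r) (Module.End (CQ r) Y) (algebraMap ℂ (CQ r) c) * S μ := by
      refine ⟨AddMonoidAlgebra.liftNCRingHom
        ((algebraMap (CQ r) (Module.End (CQ r) Y)).comp (algebraMap ℂ (CQ r))) g ?_, ?_⟩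
      · intro x μ
        change Commute (algebraMap (CQ r) (Module.End (CQ r) Y) (algebraMap ℂ (CQ r) x)) (g μ)
        exact Algebra.commutes _ _
      · intro μ c
        rw [AddMonoidAlgebra.liftNCRingHom_single, hg]
        rfl
    have hOe : ∀ μ, Op (ex μ) = S μ := by
      intro μ
      unfold ex
      rw [hOp, map_one, map_one, one_mul]
    have hOs : ∀ (T : CQ r) (v : Y), Op T v =
        ∑ μ ∈ T.coeff.support, (algebraMap ℂ (CQ r) (T.coeff μ)) • S μ v := by
      intro T v
      have h1 := AddMonoidAlgebra.sum_coeff_single T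
      have h2 : Op T = ∑ μ ∈ T.coeff.support, Op (AddMonoidAlgebra.single μ (T.coeff μ)) := by
        conv_lhs => rw [← h1]
        rw [Finsupp.sum, map_sum]
      rw [h2, LinearMap.sum_apply]
      refine Finset.sum_congr rfl fun μ _ => ?_
      rw [hOp, Module.End.mul_apply, Module.algebraMap_end_apply]
    have hy' : ∀ T, (∀ a, φ a T = T) → Op T y = T • y := by
      intro T hT
      rw [hOs, hy T]
      rw [hinv]
      intro v hv
      obtain ⟨a, rfl⟩ : v ∈ Set.range w := by
        rw [hwr]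
        exact hv
      rw [← hφa]
      exact hT a
    have key := absmod φ σ hφ i₁ h₁ (ex μ₀) hinj tf Op y hy'
    rw [hOe] at key
    refine ⟨?_, key.2⟩
    intro a μ
    have h1 := key.1 a (ex μ)
    rwa [hOe, hφa, hex] at h1

end Pool.Agent.WHC.H45
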